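import Pool.Agent.W744.SF.Stubs

set_option autoImplicit false

namespace Pool.Agent.W402.SF.Aff

open Pool.Agent.W744.SF Finset

lemma sum_bU_le {ι β : Type*} [DecidableEq β] (s : Finset ι) (f : ι → Finset β) (g : β → ℝ)
    (hg : ∀ x, 0 ≤ g x) : ∑ x ∈ s.biUnion f, g x ≤ ∑ i ∈ s, ∑ x ∈ f i, g x := by
  classical
  induction s using Finset.induction_on with
  | empty => simp
  | @insert i s hi ih =>
    rw [biUnion_insert, sum_insert hi]
    have h1 := sum_union_inter (s₁ := f i) (s₂ := s.biUnion f) (f := g)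
    have h2 : 0 ≤ ∑ x ∈ f i ∩ s.biUnion f, g x := sum_nonneg (fun x _ => hg x)
    linarith

section law

variable {k : ℕ} (Y : ℕ) (p : Fin k → ℤ → ℝ) (b : ℝ)

/-- weights of a digit vector -/
noncomputable def wt (n : Fin k → ℤ) : ℝ := ∏ l, p l (n l)

/-- hypotheses on the factors -/
structure Law : Prop where
  h0 : ∀ l n, 0 ≤ p l n
  h1 : ∀ l, ∑ n ∈ Icc (-(Y : ℤ)) Y, p l n ≤ 1
  h2 : ∀ l, 1 - b ≤ p l 0

variable {Y p b}

lemma zero_mem : (0 : ℤ) ∈ Icc (-(Y : ℤ)) Y := by
  rw [mem_Icc]; constructor <;> omega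

lemma wt_nonneg (h : Law Y p b) (n : Fin k → ℤ) : 0 ≤ wt p n := prod_nonneg (fun l _ => h.h0 l _)

lemma sum_erase (h : Law Y p b) (l : Fin k) : ∑ n ∈ (Icc (-(Y : ℤ)) Y).erase 0, p l n ≤ b := by
  have h1 := h.h1 l
  have h2 := h.h2 l
  rw [← add_sum_erase _ _ (zero_mem (Y := Y))] at h1
  linarith

lemma le_b (h : Law Y p b) (l : Fin k) {n : ℤ} (hn : n ∈ Icc (-(Y : ℤ)) Y) (hn0 : n ≠ 0) :
    p l n ≤ b := by
  refine le_trans ?_ (sum_erase h l)
  exact single_le_sum (f := p l) (fun i _ => h.h0 l i) (mem_erase.mpr ⟨hn0, hn⟩)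

lemma zero_le_one' (h : Law Y p b) (l : Fin k) : p l 0 ≤ 1 :=
  le_trans (single_le_sum (f := p l) (fun i _ => h.h0 l i) (zero_mem (Y := Y))) (h.h1 l)

lemma total (h : Law Y p b) : ∑ n ∈ Dg k Y, wt p n ≤ 1 := by
  unfold Dg wt
  rw [← prod_univ_sum]
  exact prod_le_one (fun l _ => sum_nonneg (fun n _ => h.h0 l n)) (fun l _ => h.h1 l)

lemma prod_zero_ge (h : Law Y p b) (hb : 0 ≤ b) (hb1 : b ≤ 1) (s : Finset (Fin k)) :
    1 - k * b ≤ ∏ l ∈ s, p l 0 := by
  have h1 : (1 - b) ^ s.card ≤ ∏ l ∈ s, p l 0 := by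
    rw [← prod_const]
    exact prod_le_prod (fun _ _ => by linarith) (fun l _ => h.h2 l)
  have h2 := one_add_mul_le_pow (a := -b) (by linarith) s.card
  have h3 : (s.card : ℝ) ≤ k := by
    have := card_le_univ s
    rw [Fintype.card_fin] at this
    exact_mod_cast this
  have h4 : 1 + (s.card : ℝ) * -b = 1 - s.card * b := by ring
  have h5 : 1 + -b = 1 - b := by ring
  rw [h4, h5] at h2
  nlinarith

lemma prod_zero_le (h : Law Y p b) (s : Finset (Fin k)) : ∏ l ∈ s, p l 0 ≤ 1 :=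
  prod_le_one (fun l _ => h.h0 l 0) (fun l _ => zero_le_one' h l)

lemma mass_ne_zero (h : Law Y p b) (hb : 0 ≤ b) (hb1 : b ≤ 1) :
    ∑ n ∈ (Dg k Y).filter (fun n => n ≠ 0), wt p n ≤ k * b := by
  have h1 := total h
  rw [← sum_filter_add_sum_filter_not _ (fun n : Fin k → ℤ => n ≠ 0)] at h1
  have h2 : 1 - k * b ≤ ∑ n ∈ (Dg k Y).filter (fun n => ¬ n ≠ 0), wt p n := by
    refine (prod_zero_ge h hb hb1 univ).trans ?_
    apply single_le_sum (f := wt p) (fun n _ => wt_nonneg h n)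
    rw [mem_filter]
    refine ⟨?_, fun hne => hne rfl⟩
    unfold Dg
    rw [Fintype.mem_piFinset]
    intro l
    exact zero_mem
  linarith

lemma mass_pair (h : Law Y p b) {l l' : Fin k} (hl : l ≠ l') :
    ∑ n ∈ (Dg k Y).filter (fun n => n l ≠ 0 ∧ n l' ≠ 0), wt p n ≤ b ^ 2 := by
  classical
  have e : (Dg k Y).filter (fun n => n l ≠ 0 ∧ n l' ≠ 0) =
      Fintype.piFinset (fun i => if i = l ∨ i = l' then (Icc (-(Y : ℤ)) Y).erase 0
        else Icc (-(Y : ℤ)) Y) := by
    ext n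
    unfold Dg
    rw [mem_filter, Fintype.mem_piFinset, Fintype.mem_piFinset]
    constructor
    · rintro ⟨h1, h2, h3⟩ i
      split_ifs with hi
      · rw [mem_erase]
        refine ⟨?_, h1 i⟩
        rcases hi with rfl | rfl
        · exact h2
        · exact h3
      · exact h1 i
    · intro h1
      refine ⟨fun i => ?_, ?_, ?_⟩
      · have := h1 i
        split_ifs at this
        · exact (mem_erase.mp this).2
        · exact this
      · have := h1 l
        rw [if_pos (Or.inl rfl)] at this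
        exact (mem_erase.mp this).1
      · have := h1 l'
        rw [if_pos (Or.inr rfl)] at this
        exact (mem_erase.mp this).1
  rw [e]
  unfold wt
  rw [← prod_univ_sum]
  calc _ ≤ ∏ i : Fin k, (if i = l then b else 1) * (if i = l' then b else 1) := by
        apply prod_le_prod
        · intro i _
          exact sum_nonneg (fun n _ => h.h0 i n)
        · intro i _
          by_cases h1 : i = l
          · subst h1
            rw [if_pos (Or.inl rfl), if_pos rfl, if_neg hl, mul_one]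
            exact sum_erase h i
          · by_cases h2 : i = l'
            · subst h2
              rw [if_pos (Or.inr rfl), if_pos rfl, if_neg h1, one_mul]
              exact sum_erase h i
            · rw [if_neg (by tauto), if_neg h1, if_neg h2, one_mul]
              exact h.h1 i
    _ = b ^ 2 := by
        rw [prod_mul_distrib, prod_ite_eq' univ l (fun _ => b), prod_ite_eq' univ l' (fun _ => b)]
        simp [sq]

/-- at least two nonzero digits -/
def Two (n : Fin k → ℤ) : Prop := ∃ l l', l ≠ l' ∧ n l ≠ 0 ∧ n l' ≠ 0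

open Classical in
lemma mass_two (h : Law Y p b) :
    ∑ n ∈ (Dg k Y).filter (fun n => Two n), wt p n ≤ (k : ℝ) ^ 2 * b ^ 2 := by
  have hsub : (Dg k Y).filter (fun n => Two n) ⊆
      ((univ : Finset (Fin k × Fin k)).filter (fun q => q.1 ≠ q.2)).biUnion
        (fun q => (Dg k Y).filter (fun n => n q.1 ≠ 0 ∧ n q.2 ≠ 0)) := by
    intro n hn
    rw [mem_filter] at hn
    obtain ⟨hn1, l, l', hl, h1, h2⟩ := hn
    rw [mem_biUnion]
    exact ⟨(l, l'), by simpa using hl, mem_filter.mpr ⟨hn1, h1, h2⟩⟩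
  calc _ ≤ _ := sum_le_sum_of_subset_of_nonneg hsub (fun n _ _ => wt_nonneg h n)
    _ ≤ ∑ q ∈ (univ : Finset (Fin k × Fin k)).filter (fun q => q.1 ≠ q.2),
          ∑ n ∈ (Dg k Y).filter (fun n => n q.1 ≠ 0 ∧ n q.2 ≠ 0), wt p n := by
        exact sum_bU_le _ _ _ (fun n => wt_nonneg h n)
    _ ≤ ∑ q ∈ (univ : Finset (Fin k × Fin k)).filter (fun q => q.1 ≠ q.2), b ^ 2 := by
        apply sum_le_sum
        intro q hq
        exact mass_pair h (mem_filter.mp hq).2
    _ ≤ (k : ℝ) ^ 2 * b ^ 2 := by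
        rw [sum_const, nsmul_eq_mul]
        apply mul_le_mul_of_nonneg_right _ (sq_nonneg b)
        have := card_le_univ ((univ : Finset (Fin k × Fin k)).filter (fun q => q.1 ≠ q.2))
        rw [Fintype.card_prod, Fintype.card_fin] at this
        rw [sq]
        exact_mod_cast this

end law

section key

variable {k : ℕ} {Y : ℕ} {p p' : Fin k → ℤ → ℝ} {b : ℝ}

lemma wt_single {l : Fin k} {n : Fin k → ℤ} (hn : ∀ l', l' ≠ l → n l' = 0) :
    wt p n = p l (n l) * ∏ l' ∈ univ.erase l, p l' 0 := by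
  unfold wt
  rw [← mul_prod_erase univ (fun l => p l (n l)) (mem_univ l)]
  congr 1
  apply prod_congr rfl
  intro l' hl'
  rw [hn l' (mem_erase.mp hl').1]

lemma diff_single (h : Law Y p b) (h' : Law Y p' b) (hb : 0 ≤ b) (hb1 : b ≤ 1) {l : Fin k}
    (hl : p l = p' l) {n : Fin k → ℤ} (hn : ∀ l', l' ≠ l → n l' = 0) :
    |wt p n - wt p' n| ≤ p l (n l) * (k * b) := by
  rw [wt_single hn, wt_single hn, ← hl, ← mul_sub, abs_mul, abs_of_nonneg (h.h0 l _)]
  apply mul_le_mul_of_nonneg_left _ (h.h0 l _)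
  have h1 := prod_zero_ge h hb hb1 (univ.erase l)
  have h2 := prod_zero_le h (univ.erase l)
  have h3 := prod_zero_ge h' hb hb1 (univ.erase l)
  have h4 := prod_zero_le h' (univ.erase l)
  rw [abs_le]
  constructor <;> linarith

lemma sum_single (h : Law Y p b) (l : Fin k) :
    ∑ n ∈ (Dg k Y).filter (fun n => n l ≠ 0 ∧ ∀ l', l' ≠ l → n l' = 0), p l (n l) ≤ b := by
  classical
  have hinj : Set.InjOn (fun n : Fin k → ℤ => n l)
      ((Dg k Y).filter (fun n => n l ≠ 0 ∧ ∀ l', l' ≠ l → n l' = 0)) := by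
    intro n hn m hm hnm
    simp only [coe_filter, Set.mem_ofPred_eq] at hn hm hnm
    funext l'
    by_cases hl : l' = l
    · rw [hl]; exact hnm
    · rw [hn.2.2 l' hl, hm.2.2 l' hl]
  rw [← sum_image (f := fun c => p l c) hinj]
  refine le_trans ?_ (sum_erase h l)
  apply sum_le_sum_of_subset_of_nonneg
  · intro c hc
    obtain ⟨n, hn, rfl⟩ := mem_image.mp hc
    rw [mem_filter] at hn
    rw [mem_erase]
    refine ⟨hn.2.1, ?_⟩
    have := hn.1
    unfold Dg at this
    exact Fintype.mem_piFinset.mp this l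
  · intro c _ _
    exact h.h0 l c

lemma key (h : Law Y p b) (h' : Law Y p' b) (hb : 0 ≤ b) (hb1 : b ≤ 1) (hY : 1 ≤ Y) {a : ℝ}
    {t : Fin k → ℝ} (ht : StrictMono t) (ht0 : ∀ l, 0 < t l) {l0 : Fin k}
    (hlt : ∀ l < l0, p l = p' l) (ha : a ≤ |p l0 1 - p' l0 1|) :
    a - 4 * (k : ℝ) ^ 2 * b ^ 2 ≤
      |nu (Dg k Y) (dot t) (wt p) (t l0) - nu (Dg k Y) (dot t) (wt p') (t l0)| := by
  classical
  set D0 := (Dg k Y).filter (fun n => dot t n = t l0) with hD0
  set e0 : Fin k → ℤ := Pi.single l0 1 with he0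
  set Δ : (Fin k → ℤ) → ℝ := fun n => wt p n - wt p' n with hΔ
  have hk1 : (1 : ℝ) ≤ k := by
    have := l0.pos
    exact_mod_cast this
  have he0D : e0 ∈ D0 := by
    rw [hD0, mem_filter]
    constructor
    · unfold Dg
      rw [Fintype.mem_piFinset]
      intro l
      rw [he0, mem_Icc]
      by_cases hl : l = l0
      · subst hl; rw [Pi.single_eq_same]; constructor <;> omega
      · rw [Pi.single_eq_of_ne hl]; constructor <;> omega
    · unfold dot
      rw [sum_eq_single l0]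
      · rw [he0, Pi.single_eq_same]; simp
      · intro l _ hl
        rw [he0, Pi.single_eq_of_ne hl]; simp
      · intro h; exact absurd (mem_univ _) h
  set S1 : Fin k → Finset (Fin k → ℤ) := fun l =>
    (Dg k Y).filter (fun n => n l ≠ 0 ∧ ∀ l', l' ≠ l → n l' = 0) with hS1
  set S2 := (Dg k Y).filter (fun n => Two n) with hS2
  have hsub : D0.erase e0 ⊆ ((univ.filter (fun l => l < l0)).biUnion S1) ∪ S2 := by
    intro n hn
    rw [mem_erase, hD0, mem_filter] at hn
    obtain ⟨hne, hnD, hdot⟩ := hn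
    rw [mem_union]
    by_cases hT : Two n
    · right
      exact mem_filter.mpr ⟨hnD, hT⟩
    · left
      obtain ⟨l, hl⟩ : ∃ l, n l ≠ 0 := by
        by_contra hcon
        push Not at hcon
        have : dot t n = 0 := by
          unfold dot
          apply sum_eq_zero
          intro l _
          rw [hcon l]; simp
        have := ht0 l0
        linarith
      have hl' : ∀ l', l' ≠ l → n l' = 0 := by
        intro l' hl'
        by_contra hcon
        exact hT ⟨l', l, hl', hcon, hl⟩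
      have hd : dot t n = t l * n l := by
        unfold dot
        rw [sum_eq_single l]
        · intro l' _ h1
          rw [hl' l' h1]; simp
        · intro h1; exact absurd (mem_univ _) h1
      rw [hd] at hdot
      have hpos : 0 < n l := by
        by_contra hcon
        have h1 : (n l : ℝ) ≤ 0 := by exact_mod_cast (not_lt.mp hcon)
        nlinarith [ht0 l, ht0 l0]
      have hge : (1 : ℝ) ≤ n l := by exact_mod_cast hpos
      rw [mem_biUnion]
      refine ⟨l, ?_, mem_filter.mpr ⟨hnD, hl, hl'⟩⟩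
      rw [mem_filter]
      refine ⟨mem_univ _, ?_⟩
      rcases lt_trichotomy l l0 with h1 | h1 | h1
      · exact h1
      · exfalso
        subst h1
        have h2 : (n l : ℝ) = 1 := by
          have := ht0 l
          exact mul_left_cancel₀ this.ne' (by rw [hdot, mul_one])
        apply hne
        funext l'
        by_cases h3 : l' = l
        · subst h3; rw [he0, Pi.single_eq_same]; exact_mod_cast h2
        · rw [he0, Pi.single_eq_of_ne h3, hl' l' h3]
      · exfalso
        have := ht h1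
        nlinarith [ht0 l]
  have hsum1 : ∀ l < l0, ∑ n ∈ S1 l, |Δ n| ≤ b * (k * b) := by
    intro l hl
    calc ∑ n ∈ S1 l, |Δ n| ≤ ∑ n ∈ S1 l, p l (n l) * (k * b) := by
          apply sum_le_sum
          intro n hn
          exact diff_single h h' hb hb1 (hlt l hl) (mem_filter.mp hn).2.2
      _ = (∑ n ∈ S1 l, p l (n l)) * (k * b) := by rw [sum_mul]
      _ ≤ b * (k * b) := mul_le_mul_of_nonneg_right (sum_single h l) (by positivity)
  have hsum2 : ∑ n ∈ S2, |Δ n| ≤ 2 * ((k : ℝ) ^ 2 * b ^ 2) := by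
    calc ∑ n ∈ S2, |Δ n| ≤ ∑ n ∈ S2, (wt p n + wt p' n) := by
          apply sum_le_sum
          intro n _
          have h1 := wt_nonneg h n
          have h2 := wt_nonneg h' n
          rw [abs_le]
          constructor
          · simp only [hΔ]; linarith
          · simp only [hΔ]; linarith
      _ = ∑ n ∈ S2, wt p n + ∑ n ∈ S2, wt p' n := sum_add_distrib
      _ ≤ _ := by
          have h1 := mass_two h
          have h2 := mass_two h'
          linarith
  have hrest : |∑ n ∈ D0.erase e0, Δ n| ≤ (k : ℝ) * (b * (k * b)) + 2 * ((k : ℝ) ^ 2 * b ^ 2) := by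
    calc |∑ n ∈ D0.erase e0, Δ n| ≤ ∑ n ∈ D0.erase e0, |Δ n| := abs_sum_le_sum_abs _ _
      _ ≤ ∑ n ∈ ((univ.filter (fun l => l < l0)).biUnion S1) ∪ S2, |Δ n| :=
          sum_le_sum_of_subset_of_nonneg hsub (fun _ _ _ => abs_nonneg _)
      _ ≤ ∑ n ∈ (univ.filter (fun l => l < l0)).biUnion S1, |Δ n| + ∑ n ∈ S2, |Δ n| := by
          have h1 := sum_union_inter (s₁ := (univ.filter (fun l => l < l0)).biUnion S1) (s₂ := S2)
            (f := fun n => |Δ n|)
          have h2 : 0 ≤ ∑ n ∈ ((univ.filter (fun l => l < l0)).biUnion S1) ∩ S2, |Δ n| :=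
            sum_nonneg (fun _ _ => abs_nonneg _)
          linarith
      _ ≤ (k : ℝ) * (b * (k * b)) + 2 * ((k : ℝ) ^ 2 * b ^ 2) := by
          apply add_le_add _ hsum2
          calc _ ≤ ∑ l ∈ univ.filter (fun l => l < l0), ∑ n ∈ S1 l, |Δ n| :=
                sum_bU_le _ _ _ (fun _ => abs_nonneg _)
            _ ≤ ∑ l ∈ univ.filter (fun l => l < l0), b * (k * b) := by
                apply sum_le_sum
                intro l hl
                exact hsum1 l (mem_filter.mp hl).2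
            _ ≤ (k : ℝ) * (b * (k * b)) := by
                rw [sum_const, nsmul_eq_mul]
                apply mul_le_mul_of_nonneg_right _ (by positivity)
                have := card_le_univ (univ.filter (fun l => l < l0))
                rw [Fintype.card_fin] at this
                exact_mod_cast this
  have hmain : a - b * (k * b) ≤ |Δ e0| := by
    have hz : ∀ l', l' ≠ l0 → e0 l' = 0 := fun l' hl' => Pi.single_eq_of_ne hl' _
    have e1 : e0 l0 = 1 := Pi.single_eq_same _ _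
    simp only [hΔ]
    rw [wt_single hz, wt_single hz, e1]
    set A := ∏ l' ∈ univ.erase l0, p l' 0 with hA
    set A' := ∏ l' ∈ univ.erase l0, p' l' 0 with hA'
    have h1 := prod_zero_ge h hb hb1 (univ.erase l0)
    have h2 := prod_zero_le h (univ.erase l0)
    have h3 := prod_zero_ge h' hb hb1 (univ.erase l0)
    have h4 := prod_zero_le h' (univ.erase l0)
    rw [← hA] at h1 h2
    rw [← hA'] at h3 h4
    have hmem : (1 : ℤ) ∈ Icc (-(Y : ℤ)) Y := by
      rw [mem_Icc]; constructor <;> omega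
    have h5 := le_b h l0 hmem one_ne_zero
    have h6 := le_b h' l0 hmem one_ne_zero
    have h7 := h.h0 l0 1
    have h8 := h'.h0 l0 1
    have e2 : p l0 1 * A - p' l0 1 * A' = (p l0 1 - p' l0 1) -
        (p l0 1 * (1 - A) - p' l0 1 * (1 - A')) := by ring
    have h9 : |p l0 1 * (1 - A) - p' l0 1 * (1 - A')| ≤ b * (k * b) := by
      have h10 : p l0 1 * (1 - A) ≤ b * (k * b) :=
        mul_le_mul h5 (by linarith) (by linarith) hb
      have h11 : p' l0 1 * (1 - A') ≤ b * (k * b) :=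
        mul_le_mul h6 (by linarith) (by linarith) hb
      have h12 : 0 ≤ p l0 1 * (1 - A) := mul_nonneg h7 (by linarith)
      have h13 : 0 ≤ p' l0 1 * (1 - A') := mul_nonneg h8 (by linarith)
      rw [abs_le]
      constructor <;> linarith
    rw [e2]
    have h14 := abs_sub_abs_le_abs_sub (p l0 1 - p' l0 1)
      (p l0 1 * (1 - A) - p' l0 1 * (1 - A'))
    linarith
  have hsplit : nu (Dg k Y) (dot t) (wt p) (t l0) - nu (Dg k Y) (dot t) (wt p') (t l0) =
      Δ e0 + ∑ n ∈ D0.erase e0, Δ n := by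
    rw [add_sum_erase D0 Δ he0D]
    unfold nu
    rw [← sum_sub_distrib]
  rw [hsplit]
  have h1 := abs_sub_abs_le_abs_sub (Δ e0) (-∑ n ∈ D0.erase e0, Δ n)
  rw [abs_neg, sub_neg_eq_add] at h1
  have h2 : b * ((k : ℝ) * b) ≤ (k : ℝ) ^ 2 * b ^ 2 := by
    have h4 : 0 ≤ (k : ℝ) * (k - 1) * b ^ 2 :=
      mul_nonneg (mul_nonneg (by linarith) (by linarith)) (sq_nonneg b)
    nlinarith
  have h3 : (k : ℝ) * (b * (k * b)) = (k : ℝ) ^ 2 * b ^ 2 := by ring
  linarith

end key

lemma aff0 (I : Finset ℝ) (ν ν' : ℝ → ℝ) (h0 : ∀ r, 0 ≤ ν r) (h0' : ∀ r, 0 ≤ ν' r)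
    (h1 : ∑ r ∈ I, ν r ≤ 1) (h1' : ∑ r ∈ I, ν' r ≤ 1) {τ : ℝ} (hτ : τ ∈ I) :
    ∑ r ∈ I, Real.sqrt (ν r * ν' r) ≤ 1 - (ν τ - ν' τ) ^ 2 / 8 := by
  have amgm : ∀ r, Real.sqrt (ν r * ν' r) ≤ (ν r + ν' r) / 2 := by
    intro r
    rw [Real.sqrt_mul (h0 r)]
    nlinarith [Real.sq_sqrt (h0 r), Real.sq_sqrt (h0' r),
      sq_nonneg (Real.sqrt (ν r) - Real.sqrt (ν' r))]
  have hle : ν τ ≤ 1 := (single_le_sum (f := ν) (fun r _ => h0 r) hτ).trans h1
  have hle' : ν' τ ≤ 1 := (single_le_sum (f := ν') (fun r _ => h0' r) hτ).trans h1'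
  have hat : Real.sqrt (ν τ * ν' τ) ≤ (ν τ + ν' τ) / 2 - (ν τ - ν' τ) ^ 2 / 8 := by
    rw [Real.sqrt_mul (h0 τ)]
    set x := Real.sqrt (ν τ) with hx
    set y := Real.sqrt (ν' τ) with hy
    have ex : ν τ = x ^ 2 := (Real.sq_sqrt (h0 τ)).symm
    have ey : ν' τ = y ^ 2 := (Real.sq_sqrt (h0' τ)).symm
    have hx1 : x ≤ 1 := Real.sqrt_le_one.mpr hle
    have hy1 : y ≤ 1 := Real.sqrt_le_one.mpr hle'
    have hx0 : 0 ≤ x := Real.sqrt_nonneg _
    have hy0 : 0 ≤ y := Real.sqrt_nonneg _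
    rw [ex, ey]
    have h3 : (x + y) ^ 2 ≤ 4 := by nlinarith
    nlinarith [mul_nonneg (sq_nonneg (x - y)) (sub_nonneg.mpr h3)]
  rw [← add_sum_erase I _ hτ] at h1 h1' ⊢
  have hrest : ∑ r ∈ I.erase τ, Real.sqrt (ν r * ν' r) ≤ ∑ r ∈ I.erase τ, (ν r + ν' r) / 2 :=
    sum_le_sum (fun r _ => amgm r)
  have e : ∑ r ∈ I.erase τ, (ν r + ν' r) / 2 =
      (∑ r ∈ I.erase τ, ν r + ∑ r ∈ I.erase τ, ν' r) / 2 := by
    rw [← sum_add_distrib, sum_div]
  rw [e] at hrest
  linarith

section fin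

variable {k : ℕ} {Y : ℕ} {p p' : Fin k → ℤ → ℝ} {b : ℝ}

lemma nu_nonneg (h : Law Y p b) (t : Fin k → ℝ) (r : ℝ) : 0 ≤ nu (Dg k Y) (dot t) (wt p) r :=
  sum_nonneg (fun n _ => wt_nonneg h n)

lemma nu_sum (h : Law Y p b) (t : Fin k → ℝ) (I : Finset ℝ) :
    ∑ r ∈ I, nu (Dg k Y) (dot t) (wt p) r ≤ 1 := by
  refine le_trans ?_ (total h)
  unfold nu
  exact sum_fiberwise_le_sum_of_sum_fiber_nonneg
    (fun r _ => sum_nonneg (fun n _ => wt_nonneg h n))

/-- mass of nonzero digit vectors of value `s` -/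
noncomputable def MM (k Y : ℕ) (p : Fin k → ℤ → ℝ) (t : Fin k → ℝ) (s : ℝ) : ℝ :=
  ∑ n ∈ ((Dg k Y).filter (fun n => n ≠ 0)).filter (fun n => dot t n = s), wt p n

lemma MM_nonneg (h : Law Y p b) (t : Fin k → ℝ) (s : ℝ) : 0 ≤ MM k Y p t s :=
  sum_nonneg (fun n _ => wt_nonneg h n)

lemma MM_sum (h : Law Y p b) (hb : 0 ≤ b) (hb1 : b ≤ 1) (t : Fin k → ℝ) (I : Finset ℝ) :
    ∑ r ∈ I, MM k Y p t r ≤ k * b := by
  refine le_trans ?_ (mass_ne_zero h hb hb1)
  unfold MM
  exact sum_fiberwise_le_sum_of_sum_fiber_nonneg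
    (fun r _ => sum_nonneg (fun n _ => wt_nonneg h n))

lemma nu_eq_MM (t : Fin k → ℝ) {s : ℝ} (hs : s ≠ 0) :
    nu (Dg k Y) (dot t) (wt p) s = MM k Y p t s := by
  unfold nu MM
  rw [filter_filter]
  apply sum_congr _ (fun _ _ => rfl)
  ext n
  simp only [mem_filter]
  constructor
  · rintro ⟨h1, h2⟩
    refine ⟨h1, ?_, h2⟩
    rintro rfl
    apply hs
    rw [← h2]
    unfold dot
    simp
  · rintro ⟨h1, -, h2⟩
    exact ⟨h1, h2⟩

lemma nu_le_one (h : Law Y p b) (t : Fin k → ℝ) (s : ℝ) :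
    nu (Dg k Y) (dot t) (wt p) s ≤ 1 := by
  have := nu_sum h t {s}
  simpa using this

lemma nu_le (h : Law Y p b) (hb : 0 ≤ b) (hb1 : b ≤ 1) (t : Fin k → ℝ) {s : ℝ} (hs : s ≠ 0) :
    nu (Dg k Y) (dot t) (wt p) s ≤ k * b := by
  have := MM_sum h hb hb1 t {s}
  rw [nu_eq_MM t hs]
  simpa using this

lemma off_diag (h : Law Y p b) (h' : Law Y p' b) (hb : 0 ≤ b) (hb1 : b ≤ 1)
    (t : Fin k → ℝ) {δ : ℝ} (hδ : δ ≠ 0) (I : Finset ℝ) :
    ∑ r ∈ I, Real.sqrt (nu (Dg k Y) (dot t) (wt p) (r + δ) * nu (Dg k Y) (dot t) (wt p') r) ≤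
      2 * Real.sqrt (k * b) + k * b := by
  classical
  have hterm : ∀ r, Real.sqrt (nu (Dg k Y) (dot t) (wt p) (r + δ) *
      nu (Dg k Y) (dot t) (wt p') r) ≤ (if r = 0 then Real.sqrt (k * b) else 0) +
      (if r = -δ then Real.sqrt (k * b) else 0) + (MM k Y p t (r + δ) + MM k Y p' t r) / 2 := by
    intro r
    have g1 := MM_nonneg h t (r + δ)
    have g2 := MM_nonneg h' t r
    have g3 := Real.sqrt_nonneg (k * b)
    by_cases h1 : r = 0
    · rw [if_pos h1]
      have h2 : Real.sqrt (nu (Dg k Y) (dot t) (wt p) (r + δ) *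
          nu (Dg k Y) (dot t) (wt p') r) ≤ Real.sqrt (k * b) := by
        apply Real.sqrt_le_sqrt
        have h3 : nu (Dg k Y) (dot t) (wt p) (r + δ) ≤ k * b :=
          nu_le h hb hb1 t (by rw [h1, zero_add]; exact hδ)
        calc _ ≤ (k * b) * 1 := mul_le_mul h3 (nu_le_one h' t r) (nu_nonneg h' t r)
              ((nu_nonneg h t _).trans h3)
          _ = k * b := mul_one _
      split_ifs <;> linarith
    · by_cases h1' : r = -δ
      · rw [if_neg h1, if_pos h1']
        have h2 : Real.sqrt (nu (Dg k Y) (dot t) (wt p) (r + δ) *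
            nu (Dg k Y) (dot t) (wt p') r) ≤ Real.sqrt (k * b) := by
          apply Real.sqrt_le_sqrt
          have h3 : nu (Dg k Y) (dot t) (wt p') r ≤ k * b := nu_le h' hb hb1 t h1
          calc _ ≤ 1 * (k * b) := mul_le_mul (nu_le_one h t _) h3 (nu_nonneg h' t r) zero_le_one
            _ = k * b := one_mul _
        linarith
      · rw [if_neg h1, if_neg h1']
        have h2 : r + δ ≠ 0 := fun hh => h1' (by linarith)
        rw [nu_eq_MM t h2, nu_eq_MM t h1, Real.sqrt_mul g1]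
        nlinarith [Real.sq_sqrt g1, Real.sq_sqrt g2,
          sq_nonneg (Real.sqrt (MM k Y p t (r + δ)) - Real.sqrt (MM k Y p' t r))]
  have hs1 : ∑ r ∈ I, (if r = 0 then Real.sqrt (k * b) else 0) ≤ Real.sqrt (k * b) := by
    rw [sum_ite_eq' I 0 (fun _ => Real.sqrt (k * b))]
    split_ifs
    · exact le_refl _
    · exact Real.sqrt_nonneg _
  have hs2 : ∑ r ∈ I, (if r = -δ then Real.sqrt (k * b) else 0) ≤ Real.sqrt (k * b) := by
    rw [sum_ite_eq' I (-δ) (fun _ => Real.sqrt (k * b))]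
    split_ifs
    · exact le_refl _
    · exact Real.sqrt_nonneg _
  have hs3 : ∑ r ∈ I, MM k Y p t (r + δ) ≤ k * b := by
    have := MM_sum h hb hb1 t (I.image (fun r => r + δ))
    rwa [sum_image (fun a _ c _ hac => add_right_cancel hac)] at this
  have hs4 := MM_sum h' hb hb1 t I
  calc _ ≤ ∑ r ∈ I, ((if r = 0 then Real.sqrt (k * b) else 0) +
        (if r = -δ then Real.sqrt (k * b) else 0) + (MM k Y p t (r + δ) + MM k Y p' t r) / 2) :=
        sum_le_sum (fun r _ => hterm r)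
    _ = ∑ r ∈ I, (if r = 0 then Real.sqrt (k * b) else 0) +
        ∑ r ∈ I, (if r = -δ then Real.sqrt (k * b) else 0) +
        (∑ r ∈ I, MM k Y p t (r + δ) + ∑ r ∈ I, MM k Y p' t r) / 2 := by
        rw [sum_add_distrib, sum_add_distrib, ← sum_add_distrib (f := fun r => MM k Y p t (r + δ)),
          sum_div]
    _ ≤ _ := by linarith

end fin

theorem main : Pool.Agent.W744.SF.S_Aff := by
  classical
  intro k J Y μ a b hk hY hμ0 hμ1 hμ2 ha hb hab hkb hsep t ht ht0 j hj j' hj' hne δ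
  have hjm : ∀ l, j l ∈ Jset J := fun l => by
    unfold JK at hj
    exact Fintype.mem_piFinset.mp hj l
  have hjm' : ∀ l, j' l ∈ Jset J := fun l => by
    unfold JK at hj'
    exact Fintype.mem_piFinset.mp hj' l
  have hk1 : (1 : ℝ) ≤ k := by exact_mod_cast hk
  have hb25 : b ≤ 1 / 25 := by nlinarith
  have h : Law Y (fun l n => μ (j l) n) b :=
    ⟨fun l n => hμ0 _ _, fun l => hμ1 _ (hjm l), fun l => hμ2 _ (hjm l)⟩
  have h' : Law Y (fun l n => μ (j' l) n) b :=
    ⟨fun l n => hμ0 _ _, fun l => hμ1 _ (hjm' l), fun l => hμ2 _ (hjm' l)⟩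
  change ∑ r ∈ (Dg k Y).image (dot t), Real.sqrt (nu (Dg k Y) (dot t) (wt (fun l n => μ (j l) n))
    (r + δ) * nu (Dg k Y) (dot t) (wt (fun l n => μ (j' l) n)) r) ≤ 1 - a ^ 2 / 32
  -- first index where they differ
  have hex : (univ.filter (fun l => j l ≠ j' l)).Nonempty := by
    by_contra hcon
    rw [not_nonempty_iff_eq_empty, filter_eq_empty_iff] at hcon
    apply hne
    funext l
    have := hcon (mem_univ l)
    push Not at this
    exact this
  set l0 := (univ.filter (fun l => j l ≠ j' l)).min' hex with hl0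
  have hl0m : j l0 ≠ j' l0 := (mem_filter.mp (min'_mem _ hex)).2
  have hlt : ∀ l < l0, j l = j' l := by
    intro l hl
    by_contra hcon
    have := min'_le (univ.filter (fun l => j l ≠ j' l)) l (mem_filter.mpr ⟨mem_univ l, hcon⟩)
    rw [← hl0] at this
    exact absurd hl (not_lt.mpr this)
  have hasep := hsep _ (hjm l0) _ (hjm' l0) hl0m
  have hmem : (1 : ℤ) ∈ Icc (-(Y : ℤ)) Y := by
    rw [mem_Icc]; constructor <;> omega
  have ha1 : a ≤ 1 := by
    have h5 := le_b h l0 hmem one_ne_zero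
    have h6 := le_b h' l0 hmem one_ne_zero
    have h7 := h.h0 l0 1
    have h8 := h'.h0 l0 1
    have h9 : |μ (j l0) 1 - μ (j' l0) 1| ≤ 1 := by
      rw [abs_le]; constructor <;> linarith
    linarith
  by_cases hδ : δ = 0
  · subst hδ
    simp only [add_zero]
    have hτ : t l0 ∈ (Dg k Y).image (dot t) := by
      refine mem_image.mpr ⟨Pi.single l0 1, ?_, ?_⟩
      · unfold Dg
        rw [Fintype.mem_piFinset]
        intro l
        rw [mem_Icc]
        by_cases hl : l = l0
        · rw [hl, Pi.single_eq_same]; constructor <;> omega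
        · rw [Pi.single_eq_of_ne hl]; constructor <;> omega
      · unfold dot
        rw [sum_eq_single l0]
        · rw [Pi.single_eq_same]; simp
        · intro l _ hl
          rw [Pi.single_eq_of_ne hl]; simp
        · intro hh; exact absurd (mem_univ _) hh
    have h1 := aff0 ((Dg k Y).image (dot t)) _ _ (nu_nonneg h t) (nu_nonneg h' t)
      (nu_sum h t _) (nu_sum h' t _) hτ
    have h2 := key h h' hb (by linarith) hY ht ht0 (l0 := l0) (a := a)
      (fun l hl => by
        funext n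
        rw [hlt l hl]) hasep
    set D := nu (Dg k Y) (dot t) (wt (fun l n => μ (j l) n)) (t l0) -
      nu (Dg k Y) (dot t) (wt (fun l n => μ (j' l) n)) (t l0) with hD
    have h3 : a / 2 ≤ |D| := by linarith
    have h4 : a ^ 2 / 4 ≤ D ^ 2 := by
      rw [← sq_abs D]
      nlinarith [abs_nonneg D]
    linarith
  · have h1 := off_diag h h' hb (by linarith) t hδ ((Dg k Y).image (dot t))
    have h2 : Real.sqrt (k * b) ≤ 1 / 5 := by
      rw [Real.sqrt_le_left (by norm_num)]
      linarith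
    have h3 : a ^ 2 ≤ 1 := by nlinarith
    linarith

end Pool.Agent.W402.SF.Aff
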