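import Pool.Agent.W744.SF.Stubs

set_option autoImplicit false

namespace Pool.Agent.W402.SF

open Pool.Agent.W744.SF Finset

lemma sqrt_sum_le {ι : Type*} (s : Finset ι) (a : ι → ℝ) (ha : ∀ i ∈ s, 0 ≤ a i) :
    Real.sqrt (∑ i ∈ s, a i) ≤ ∑ i ∈ s, Real.sqrt (a i) := by
  classical
  induction s using Finset.induction_on with
  | empty => simp
  | @insert i s hi ih =>
    rw [sum_insert hi, sum_insert hi]
    have h1 := ih (fun j hj => ha j (mem_insert_of_mem hj))
    have h2 : 0 ≤ a i := ha i (mem_insert_self _ _)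
    have h3 : 0 ≤ ∑ j ∈ s, a j := sum_nonneg (fun j hj => ha j (mem_insert_of_mem hj))
    calc Real.sqrt (a i + ∑ j ∈ s, a j) ≤ Real.sqrt (a i) + Real.sqrt (∑ j ∈ s, a j) := by
          rw [Real.sqrt_le_left (by positivity)]
          nlinarith [Real.sq_sqrt h2, Real.sq_sqrt h3,
            mul_nonneg (Real.sqrt_nonneg (a i)) (Real.sqrt_nonneg (∑ j ∈ s, a j))]
      _ ≤ _ := by linarith

section

variable {α : Type} (S : Finset α) (v m m' : α → ℝ) (d : ℕ) (ω : Fin d → ℝ)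

lemma nu_nonneg {m : α → ℝ} (hm : ∀ a ∈ S, 0 ≤ m a) (r : ℝ) : 0 ≤ nu S v m r :=
  sum_nonneg (fun a ha => hm a (mem_filter.mp ha).1)

/-- value sequences -/
noncomputable def TV : Finset (Fin d → ℝ) := Fintype.piFinset fun _ : Fin d => S.image v

/-- fractional part of the phase -/
noncomputable def ph (θ : ℝ) (τ : Fin d → ℝ) : ℝ := Int.fract (θ + ∑ i, ω i * τ i)

lemma PZ_eq (θ z : ℝ) :
    PZ S v m d ω θ z = ∑ τ ∈ (TV S v d).filter (fun τ => ph d ω θ τ = z), ∏ i, nu S v m (τ i) := by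
  unfold PZ
  rw [← sum_fiberwise_of_maps_to (g := fun x : Fin d → α => fun i => v (x i))
    (t := (TV S v d).filter (fun τ => ph d ω θ τ = z))]
  · apply sum_congr rfl
    intro τ hτ
    rw [mem_filter] at hτ
    unfold nu
    rw [prod_univ_sum]
    apply sum_congr _ (fun _ _ => rfl)
    ext x
    simp only [mem_filter, Fintype.mem_piFinset]
    constructor
    · rintro ⟨⟨h1, _⟩, h3⟩ i
      exact ⟨h1 i, congrFun h3 i⟩
    · intro h
      have h3 : (fun i => v (x i)) = τ := funext fun i => (h i).2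
      refine ⟨⟨fun i => (h i).1, ?_⟩, h3⟩
      have h4 := hτ.2
      rw [← h3] at h4
      exact h4
  · intro x hx
    simp only [mem_filter, Fintype.mem_piFinset] at hx
    simp only [mem_filter, TV, Fintype.mem_piFinset]
    exact ⟨fun i => mem_image_of_mem v (hx.1 i), hx.2⟩

/-- first differences -/
noncomputable def D1 : Finset ℝ := (S ×ˢ S).image (fun p => v p.1 - v p.2)

/-- second differences -/
noncomputable def D2 : Finset ℝ := ((S ×ˢ S) ×ˢ (S ×ˢ S)).image
    (fun p : (α × α) × (α × α) => (v p.1.1 - v p.1.2) - (v p.2.1 - v p.2.2))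

lemma D1_sub : D1 S v ⊆ D2 S v := by
  intro x hx
  obtain ⟨⟨a, b⟩, hab, rfl⟩ := mem_image.mp hx
  rw [mem_product] at hab
  refine mem_image.mpr ⟨((a, b), (a, a)), ?_, by simp⟩
  simp only [mem_product]
  exact ⟨hab, hab.1, hab.1⟩

lemma sub_mem_D2 {x y : ℝ} (hx : x ∈ D1 S v) (hy : y ∈ D1 S v) : x - y ∈ D2 S v := by
  obtain ⟨⟨a, b⟩, hab, rfl⟩ := mem_image.mp hx
  obtain ⟨⟨c, e⟩, hce, rfl⟩ := mem_image.mp hy
  exact mem_image.mpr ⟨((a, b), (c, e)), mem_product.mpr ⟨hab, hce⟩, rfl⟩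

lemma abs_D2 {M : ℝ} (hM : ∀ a ∈ S, |v a| ≤ M) {x : ℝ} (hx : x ∈ D2 S v) : |x| ≤ 4 * M := by
  obtain ⟨⟨⟨a, b⟩, ⟨c, e⟩⟩, h, rfl⟩ := mem_image.mp hx
  simp only [mem_product] at h
  have h1 := abs_le.mp (hM a h.1.1)
  have h2 := abs_le.mp (hM b h.1.2)
  have h3 := abs_le.mp (hM c h.2.1)
  have h4 := abs_le.mp (hM e h.2.2)
  exact abs_le.mpr ⟨by simp only; linarith, by simp only; linarith⟩

end

/-- resonance condition for positions `i, i'` and differences `u, u'` -/
def Res {d : ℕ} (ω : Fin d → ℝ) (i i' : Fin d) (u u' : ℝ) : Prop :=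
  u ≠ 0 ∧ u' ≠ 0 ∧ |ω i * u| ≤ 2 * (d : ℝ) * |ω i' * u'| ∧ |ω i' * u'| ≤ 2 * (d : ℝ) * |ω i * u|

lemma Res.symm {d : ℕ} {ω : Fin d → ℝ} {i i' : Fin d} {u u' : ℝ} (h : Res ω i i' u u') :
    Res ω i' i u' u := ⟨h.2.1, h.1, h.2.2.2, h.2.2.1⟩

lemma Res.ratio {d : ℕ} {ω : Fin d → ℝ} (hω : ∀ i, 0 < ω i) {i i' : Fin d} {u u' : ℝ}
    (h : Res ω i i' u u') :
    ω i / ω i' ≤ 2 * (d : ℝ) * (|u'| / |u|) ∧ |u'| / |u| ≤ 2 * (d : ℝ) * (ω i / ω i') := by
  obtain ⟨hu, hu', h1, h2⟩ := h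
  have hu0 := abs_pos.mpr hu
  have hi := hω i
  have hi' := hω i'
  rw [abs_mul, abs_mul, abs_of_pos hi, abs_of_pos hi'] at h1 h2
  constructor
  · rw [div_le_iff₀ hi']
    have : 2 * (d : ℝ) * (|u'| / |u|) * ω i' = (2 * d * (ω i' * |u'|)) / |u| := by ring
    rw [this, le_div_iff₀ hu0]
    exact h1
  · rw [div_le_iff₀ hu0]
    have : 2 * (d : ℝ) * (ω i / ω i') * |u| = (2 * d * (ω i * |u|)) / ω i' := by ring
    rw [this, le_div_iff₀ hi']
    linarith

open Classical in
/-- resonant positions -/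
noncomputable def LL {d : ℕ} (ω : Fin d → ℝ) (E : Finset ℝ) : Finset (Fin d) :=
  univ.filter (fun i => ∃ i', i' ≠ i ∧ ∃ u ∈ E, ∃ u' ∈ E, Res ω i i' u u')

lemma card_LL {d : ℕ} {ω : Fin d → ℝ} (hω : ∀ i, 0 < ω i) (hS : Sep d ω) (E : Finset ℝ) :
    (LL ω E).card ≤ 2 * E.card ^ 2 := by
  classical
  let A : ℝ × ℝ → Finset (Fin d × Fin d) := fun p =>
    univ.filter (fun q => q.1 < q.2 ∧ Res ω q.1 q.2 p.1 p.2)
  have hA : ∀ p, (A p).card ≤ 1 := by
    intro p
    rw [card_le_one]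
    rintro ⟨i, i'⟩ hi ⟨j, j'⟩ hj
    simp only [A, mem_filter, mem_univ, true_and] at hi hj
    by_contra hne
    obtain ⟨h1, h2⟩ := hi.2.ratio hω
    obtain ⟨h3, h4⟩ := hj.2.ratio hω
    have hd : (0 : ℝ) ≤ 2 * d := by positivity
    rcases hS i i' j j' hi.1 hj.1 hne with h | h
    · have h5 := mul_le_mul_of_nonneg_left h2 hd
      nlinarith
    · have h5 := mul_le_mul_of_nonneg_left h4 hd
      nlinarith
  have hsub : LL ω E ⊆ (E ×ˢ E).biUnion (fun p => (A p).image Prod.fst ∪ (A p).image Prod.snd) := by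
    intro i hi
    simp only [LL, mem_filter, mem_univ, true_and] at hi
    obtain ⟨i', hne, u, hu, u', hu', h⟩ := hi
    rw [mem_biUnion]
    rcases lt_or_gt_of_ne hne with hlt | hlt
    · refine ⟨(u', u), mem_product.mpr ⟨hu', hu⟩, mem_union_right _ ?_⟩
      refine mem_image.mpr ⟨(i', i), ?_, rfl⟩
      simp only [A, mem_filter, mem_univ, true_and]
      exact ⟨hlt, h.symm⟩
    · refine ⟨(u, u'), mem_product.mpr ⟨hu, hu'⟩, mem_union_left _ ?_⟩
      refine mem_image.mpr ⟨(i, i'), ?_, rfl⟩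
      simp only [A, mem_filter, mem_univ, true_and]
      exact ⟨hlt, h⟩
  calc (LL ω E).card ≤ _ := card_le_card hsub
    _ ≤ (E ×ˢ E).card * 2 := by
      apply card_biUnion_le_card_mul
      intro p _
      calc _ ≤ ((A p).image Prod.fst).card + ((A p).image Prod.snd).card := card_union_le _ _
        _ ≤ (A p).card + (A p).card := add_le_add card_image_le card_image_le
        _ ≤ 2 := by have := hA p; omega
    _ = 2 * E.card ^ 2 := by rw [card_product]; ring

lemma uniq {d : ℕ} {ω : Fin d → ℝ} (hω : ∀ i, 0 < ω i) {E : Finset ℝ} {B : ℝ}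
    (hB : ∀ x ∈ E, |x| ≤ B) (hsum : B * ∑ i, ω i < 1) (e : Fin d → ℝ) (he : ∀ i, e i ∈ E)
    (hL : ∀ i ∈ LL ω E, e i = 0) (n : ℤ) (hn : ∑ i, ω i * e i = n) : e = 0 := by
  classical
  have habs : |∑ i, ω i * e i| < 1 := by
    calc |∑ i, ω i * e i| ≤ ∑ i, |ω i * e i| := abs_sum_le_sum_abs _ _
      _ ≤ ∑ i, ω i * B := by
        apply sum_le_sum
        intro i _
        rw [abs_mul, abs_of_pos (hω i)]
        exact mul_le_mul_of_nonneg_left (hB _ (he i)) (hω i).le
      _ = B * ∑ i, ω i := by rw [← sum_mul, mul_comm]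
      _ < 1 := hsum
  have hn0 : n = 0 := by
    rw [hn] at habs
    have : |n| < 1 := by exact_mod_cast habs
    exact Int.abs_lt_one_iff.mp this
  rw [hn0, Int.cast_zero] at hn
  by_contra hne
  obtain ⟨i₀, hi₀⟩ : ∃ i, e i ≠ 0 := by
    by_contra h
    push Not at h
    exact hne (funext h)
  obtain ⟨i, -, hi⟩ := exists_max_image univ (fun i => |ω i * e i|) ⟨i₀, mem_univ _⟩
  have hdpos : (1 : ℝ) ≤ d := by
    have := i.pos
    exact_mod_cast this
  have hpos : 0 < |ω i * e i| :=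
    lt_of_lt_of_le (abs_pos.mpr (mul_ne_zero (hω i₀).ne' hi₀)) (hi i₀ (mem_univ _))
  have hei : e i ≠ 0 := by
    intro h
    rw [h, mul_zero, abs_zero] at hpos
    exact lt_irrefl _ hpos
  have hiL : i ∉ LL ω E := fun h => hei (hL i h)
  have hsmall : ∀ i', i' ≠ i → 2 * (d : ℝ) * |ω i' * e i'| ≤ |ω i * e i| := by
    intro i' hne'
    by_contra hcon
    push Not at hcon
    apply hiL
    simp only [LL, mem_filter, mem_univ, true_and]
    refine ⟨i', hne', e i, he i, e i', he i', hei, ?_, hcon.le, ?_⟩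
    · intro h
      rw [h, mul_zero, abs_zero, mul_zero] at hcon
      linarith
    · have h1 := hi i' (mem_univ _)
      nlinarith
  have h1 : ω i * e i = -∑ i' ∈ univ.erase i, ω i' * e i' := by
    have := add_sum_erase univ (fun i => ω i * e i) (mem_univ i)
    linarith
  have h2 : 2 * (d : ℝ) * |ω i * e i| ≤ ((d : ℝ) - 1) * |ω i * e i| := by
    calc 2 * (d : ℝ) * |ω i * e i| = 2 * (d : ℝ) * |∑ i' ∈ univ.erase i, ω i' * e i'| := by
          rw [h1, abs_neg]
      _ ≤ 2 * (d : ℝ) * ∑ i' ∈ univ.erase i, |ω i' * e i'| := by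
          apply mul_le_mul_of_nonneg_left (abs_sum_le_sum_abs _ _) (by positivity)
      _ = ∑ i' ∈ univ.erase i, 2 * (d : ℝ) * |ω i' * e i'| := by rw [mul_sum]
      _ ≤ ∑ i' ∈ univ.erase i, |ω i * e i| := by
          apply sum_le_sum
          intro i' hi'
          exact hsmall i' (mem_erase.mp hi').1
      _ = _ := by
          rw [sum_const, card_erase_of_mem (mem_univ i), card_univ, Fintype.card_fin, nsmul_eq_mul,
            Nat.cast_sub (by exact_mod_cast hdpos), Nat.cast_one]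
  nlinarith

lemma main_bound {α : Type} (S : Finset α) (v m m' : α → ℝ) (d : ℕ)
    (ω : Fin d → ℝ) (w θ θ' M : ℝ) (q : ℕ)
    (hm : ∀ a ∈ S, 0 ≤ m a) (hm' : ∀ a ∈ S, 0 ≤ m' a) (hM : ∀ a ∈ S, |v a| ≤ M)
    (hω : ∀ i, 0 < ω i) (hsum : 4 * M * ∑ i, ω i < 1) (hS : Sep d ω)
    (hq : (D2 S v).card ≤ q) (hw0 : 0 ≤ w)
    (hw : ∀ δ : ℝ, ∑ r ∈ S.image v, Real.sqrt (nu S v m (r + δ) * nu S v m' r) ≤ w)
    (Z : Finset ℝ) :
    ∑ z ∈ Z, Real.sqrt (PZ S v m d ω θ z * PZ S v m' d ω θ' z) ≤ (q : ℝ) ^ (2 * q ^ 2) * w ^ d := by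
  classical
  set T := TV S v d with hT
  set N : (Fin d → ℝ) → ℝ := fun τ => ∏ i, nu S v m (τ i) with hN
  set N' : (Fin d → ℝ) → ℝ := fun τ => ∏ i, nu S v m' (τ i) with hN'
  have hN0 : ∀ τ, 0 ≤ N τ := fun τ => prod_nonneg (fun i _ => nu_nonneg S v hm _)
  have hN0' : ∀ τ, 0 ≤ N' τ := fun τ => prod_nonneg (fun i _ => nu_nonneg S v hm' _)
  set W : (Fin d → ℝ) × (Fin d → ℝ) → ℝ := fun p => Real.sqrt (N p.1) * Real.sqrt (N' p.2) with hW
  have hW0 : ∀ p, 0 ≤ W p := fun p => mul_nonneg (Real.sqrt_nonneg _) (Real.sqrt_nonneg _)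
  set E : Finset ((Fin d → ℝ) × (Fin d → ℝ)) :=
    (T ×ˢ T).filter (fun p => ph d ω θ p.1 = ph d ω θ' p.2) with hE
  -- step 2
  have step2 : ∑ z ∈ Z, Real.sqrt (PZ S v m d ω θ z * PZ S v m' d ω θ' z) ≤ ∑ p ∈ E, W p := by
    calc ∑ z ∈ Z, Real.sqrt (PZ S v m d ω θ z * PZ S v m' d ω θ' z)
        ≤ ∑ z ∈ Z, ∑ p ∈ E.filter (fun p => ph d ω θ p.1 = z), W p := by
          apply sum_le_sum
          intro z _
          rw [PZ_eq, PZ_eq, Real.sqrt_mul (sum_nonneg (fun τ _ => hN0 τ))]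
          have h1 := sqrt_sum_le (T.filter (fun τ => ph d ω θ τ = z)) N (fun τ _ => hN0 τ)
          have h2 := sqrt_sum_le (T.filter (fun τ => ph d ω θ' τ = z)) N' (fun τ _ => hN0' τ)
          refine (mul_le_mul h1 h2 (Real.sqrt_nonneg _)
            (sum_nonneg (fun τ _ => Real.sqrt_nonneg _))).trans (le_of_eq ?_)
          rw [sum_mul_sum, ← sum_product']
          apply sum_congr _ (fun _ _ => rfl)
          ext p
          simp only [hE, mem_filter, mem_product]
          constructor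
          · rintro ⟨⟨a, b⟩, c, e⟩
            exact ⟨⟨⟨a, c⟩, b.trans e.symm⟩, b⟩
          · rintro ⟨⟨⟨a, c⟩, b⟩, e⟩
            exact ⟨⟨a, e⟩, c, b.symm.trans e⟩
      _ ≤ ∑ p ∈ E, W p := by
          apply sum_fiberwise_le_sum_of_sum_fiber_nonneg
          intro y _
          exact sum_nonneg (fun p _ => hW0 p)
  -- step 3
  set Δ : Finset (Fin d → ℝ) := E.image (fun p => p.1 - p.2) with hΔ
  have hfib : ∀ δ ∈ Δ, ∑ p ∈ E.filter (fun p => p.1 - p.2 = δ), W p ≤ w ^ d := by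
    intro δ _
    have hinj : Set.InjOn (Prod.snd : (Fin d → ℝ) × (Fin d → ℝ) → (Fin d → ℝ))
        (E.filter (fun p => p.1 - p.2 = δ)) := by
      rintro ⟨a, b⟩ hab ⟨a', b'⟩ hab' h
      simp only [coe_filter, Set.mem_ofPred_eq] at hab hab' h
      subst h
      have h1 := hab.2.trans hab'.2.symm
      have h2 : a = a' := sub_left_injective h1
      rw [h2]
    calc ∑ p ∈ E.filter (fun p => p.1 - p.2 = δ), W p
        = ∑ p ∈ E.filter (fun p => p.1 - p.2 = δ), (fun τ => Real.sqrt (N (τ + δ)) *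
            Real.sqrt (N' τ)) (Prod.snd p) := by
          apply sum_congr rfl
          intro p hp
          have h1 := (mem_filter.mp hp).2
          have h2 : p.1 = p.2 + δ := by rw [← h1]; abel
          simp only [hW]
          rw [h2]
      _ = ∑ τ ∈ (E.filter (fun p => p.1 - p.2 = δ)).image Prod.snd, Real.sqrt (N (τ + δ)) *
            Real.sqrt (N' τ) := by
          rw [sum_image hinj]
      _ ≤ ∑ τ ∈ T, Real.sqrt (N (τ + δ)) * Real.sqrt (N' τ) := by
          apply sum_le_sum_of_subset_of_nonneg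
          · intro τ hτ
            obtain ⟨p, hp, rfl⟩ := mem_image.mp hτ
            exact (mem_product.mp (mem_filter.mp (mem_filter.mp hp).1).1).2
          · intro τ _ _
            positivity
      _ = ∑ τ ∈ T, ∏ i, Real.sqrt (nu S v m (τ i + δ i) * nu S v m' (τ i)) := by
          apply sum_congr rfl
          intro τ _
          simp only [hN, hN']
          rw [Real.sqrt_prod _ (fun i _ => nu_nonneg S v hm _),
            Real.sqrt_prod _ (fun i _ => nu_nonneg S v hm' _), ← prod_mul_distrib]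
          apply prod_congr rfl
          intro i _
          rw [Real.sqrt_mul (nu_nonneg S v hm _)]
          rfl
      _ = ∏ i, ∑ r ∈ S.image v, Real.sqrt (nu S v m (r + δ i) * nu S v m' r) := by
          rw [prod_univ_sum]
          rfl
      _ ≤ ∏ _i : Fin d, w := by
          apply prod_le_prod
          · intro i _
            exact sum_nonneg (fun r _ => Real.sqrt_nonneg _)
          · intro i _
            exact hw (δ i)
      _ = w ^ d := by rw [prod_const, card_univ, Fintype.card_fin]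
  have step3 : ∑ p ∈ E, W p ≤ Δ.card * w ^ d := by
    rw [← sum_fiberwise_of_maps_to (g := fun p : (Fin d → ℝ) × (Fin d → ℝ) => p.1 - p.2) (t := Δ)
      (fun p hp => mem_image_of_mem _ hp)]
    calc _ ≤ ∑ _δ ∈ Δ, w ^ d := sum_le_sum hfib
      _ = Δ.card * w ^ d := by rw [sum_const, nsmul_eq_mul]
  -- step 4
  have hΔ1 : ∀ δ ∈ Δ, (∀ i, δ i ∈ D1 S v) ∧ ∃ n : ℤ, ∑ i, ω i * δ i = θ' - θ + n := by
    intro δ hδ
    obtain ⟨⟨τ, τ'⟩, hp, rfl⟩ := mem_image.mp hδ
    rw [hE, mem_filter, mem_product] at hp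
    obtain ⟨⟨h1, h2⟩, h3⟩ := hp
    simp only [hT, TV, Fintype.mem_piFinset] at h1 h2
    constructor
    · intro i
      obtain ⟨a, ha, hav⟩ := mem_image.mp (h1 i)
      obtain ⟨b, hb, hbv⟩ := mem_image.mp (h2 i)
      refine mem_image.mpr ⟨(a, b), mem_product.mpr ⟨ha, hb⟩, ?_⟩
      simp only [Pi.sub_apply]
      rw [hav, hbv]
    · simp only [ph] at h3
      obtain ⟨n, hn⟩ := Int.fract_eq_fract.mp h3
      refine ⟨n, ?_⟩
      have : ∑ i, ω i * (τ - τ') i = ∑ i, ω i * τ i - ∑ i, ω i * τ' i := by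
        rw [← sum_sub_distrib]
        apply sum_congr rfl
        intro i _
        simp only [Pi.sub_apply]
        ring
      rw [this, ← hn]
      ring
  set L := LL ω (D2 S v) with hLdef
  have hcard : Δ.card ≤ q ^ L.card := by
    have h1 : Δ.card ≤ (Fintype.piFinset (fun _ : L => D1 S v)).card := by
      apply card_le_card_of_injOn (fun δ => fun i : L => δ i)
      · intro δ hδ
        rw [mem_coe, Fintype.mem_piFinset]
        intro i
        exact (hΔ1 δ hδ).1 i
      · intro δ hδ δ' hδ' h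
        obtain ⟨h1, n, hn⟩ := hΔ1 δ hδ
        obtain ⟨h1', n', hn'⟩ := hΔ1 δ' hδ'
        have h2 := uniq hω (B := 4 * M) (fun x hx => abs_D2 S v hM hx) hsum (δ - δ')
          (fun i => sub_mem_D2 S v (h1 i) (h1' i))
          (fun i hi => by
            have := congrFun h ⟨i, hi⟩
            simp only at this
            simp only [Pi.sub_apply]
            linarith) (n - n') (by
            have : ∑ i, ω i * (δ - δ') i = ∑ i, ω i * δ i - ∑ i, ω i * δ' i := by
              rw [← sum_sub_distrib]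
              apply sum_congr rfl
              intro i _
              simp only [Pi.sub_apply]
              ring
            rw [this, hn, hn']
            push_cast
            ring)
        exact sub_eq_zero.mp h2
    rw [Fintype.card_piFinset, prod_const, card_univ, Fintype.card_coe] at h1
    exact h1.trans (Nat.pow_le_pow_left ((card_le_card (D1_sub S v)).trans hq) _)
  have hLc : L.card ≤ 2 * q ^ 2 := (card_LL hω hS _).trans (by gcongr)
  have hcard2 : Δ.card ≤ q ^ (2 * q ^ 2) := by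
    rcases Nat.eq_zero_or_pos q with h | h
    · subst h
      have : L.card = 0 := by simpa using hLc
      rw [this] at hcard
      simpa using hcard
    · exact hcard.trans (Nat.pow_le_pow_right h hLc)
  calc _ ≤ _ := step2
    _ ≤ _ := step3
    _ ≤ (q : ℝ) ^ (2 * q ^ 2) * w ^ d := by
      apply mul_le_mul_of_nonneg_right _ (by positivity)
      exact_mod_cast hcard2

theorem main : Pool.Agent.W744.SF.S_BC := by
  intro α _ S v m m' d ω w θ θ' M q hm hm' _ _ hM hω hsum hS hq hw0 _ hw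
  exact main_bound S v m m' d ω w θ θ' M q hm hm' hM hω hsum hS hq hw0 hw _

end Pool.Agent.W402.SF
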